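import Pool.Agent.H43.RCR.Basic

/-!
# Project RCR, module P7: the index count
-/

namespace Pool.Agent.H43.RCR

open Finset Pool.Agent.H3.RCR

/-- the data of a tight annulus, with its outer boundary and the facts of P0 -/
structure TA (F D K : Finset Tri) (b N : ℕ) (C : ZMod b → ℕ) (θ : ℕ → ZMod b) (d : ℕ → ℤ) (z : ℕ)
    (Z : ZMod z → ℕ) : Prop where
  sph : Sph F
  hb : 4 ≤ b
  hN : 2 ≤ N
  tight : Tight F b N C D K θ d
  cycZ : Cyc F Z
  sideZ : Side F (fun i => Z (-i)) K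
  dZ : ∀ i, d (Z i) = N
  f1 : ∀ x ∈ verts (K \ D), IntV F D K x ∨ (∃ i, x = C i) ∨ (∃ k, x = Z k)
  f2 : ∀ i, C i ∈ verts (K \ D) ∧ C i ∈ verts D ∧ C i ∉ verts (F \ K)
  f3 : ∀ k, Z k ∈ verts (K \ D) ∧ Z k ∉ verts D ∧ Z k ∈ verts K ∧ Z k ∈ verts (F \ K)
  f4 : ∀ x, IntV F D K x → ∀ p q, (x, p, q) ∈ F → (x, p, q) ∈ K \ D
  f5 : ∀ x, IntV F D K x → ∀ y, Adj F x y → y ∈ verts (K \ D)
  f6 : ∀ x, x ∈ verts K → x ∈ verts (F \ K) → ∃ k, x = Z k
  f8 : ∀ x ∈ verts (K \ D), ∀ y ∈ verts (K \ D), Adj F x y →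
    ((dl θ x y : ℤ) : ZMod b) = θ y - θ x ∧ |d y - d x| ≤ 1
  f9 : ∀ x y c, (x, y, c) ∈ K \ D → dl θ x y + dl θ y c + dl θ c x = 0
  hz : b ≤ z

theorem exists_TA (h0 : P0Stmt) (h7 : A7Stmt) (h20 : A20Stmt) {F D K : Finset Tri} {b N : ℕ} {C : ZMod b → ℕ}
    {θ : ℕ → ZMod b} {d : ℕ → ℤ} (hF : Sph F) (hb : 4 ≤ b) (hN : 2 ≤ N) (hT : Tight F b N C D K θ d) :
    ∃ z Z, TA F D K b N C θ d z Z := by
  obtain ⟨z, Z, hc, hs, hd⟩ := hT.sideK
  obtain ⟨g1, g2, g3, g4, g5, g6, g7, g8, g9, g10⟩ := h0 F D K b N C θ d hF (by omega) hT.toAnn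
  have hbd := bd_side h7 hF hc hs
  refine ⟨z, Z, hF, hb, hN, hT, hc, hs, hd, ?_, g2, ?_, g4, g5, ?_, ?_, g10 hb, ?_⟩
  · intro x hx
    rcases g1 x hx with h | h | h
    · exact Or.inl h
    · exact Or.inr (Or.inl h)
    · exact Or.inr (Or.inr ((hbd x).1 h))
  · intro k
    have h1 := (hbd (Z k)).2 ⟨k, rfl⟩
    obtain ⟨h2, h3, -⟩ := g3 (Z k) h1.1 h1.2
    exact ⟨h2, h3, h1.1, h1.2⟩
  · intro x h1 h2
    exact (hbd x).1 ⟨h1, h2⟩
  · intro x hx y hy hxy
    obtain ⟨h1, -, -, h2⟩ := g9 x hx y hy hxy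
    exact ⟨h1, h2⟩
  · exact le_len h0 h20 hF hb (by omega) hT.toAnn hc hs

namespace TA

variable {F D K : Finset Tri} {b N z : ℕ} {C : ZMod b → ℕ} {θ : ℕ → ZMod b} {d : ℕ → ℤ} {Z : ZMod z → ℕ}
  (H : TA F D K b N C θ d z Z)

include H

lemma pre : Pre F := H.sph.toPre

lemma rotA : RotC (K \ D) := rotC_sdiff H.sideZ.rot H.tight.sideD.rot

lemma subA {t : Tri} (h : t ∈ K \ D) : t ∈ F := H.sideZ.sub (Finset.mem_sdiff.1 h).1

lemma jumpK (x y : ℕ) : Jump F K x y ↔ ∃ k, x = Z k ∧ y = Z (k - 1) := jump_neg H.sideZ x y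

lemma jumpD (x y : ℕ) : Jump F D x y ↔ ∃ k, x = C k ∧ y = C (k - 1) := jump_neg H.tight.sideD x y

lemma z1' : (1 : ZMod z) ≠ 0 := z1 (by have := H.hb; have := H.hz; omega)
lemma z2' : (2 : ZMod z) ≠ 0 := z2 (by have := H.hb; have := H.hz; omega)
lemma z3' : (3 : ZMod z) ≠ 0 := z3 (by have := H.hb; have := H.hz; omega)

lemma C_ne_Z (i : ZMod b) (k : ZMod z) : C i ≠ Z k := by
  intro h
  have h1 := H.tight.dC i
  rw [h, H.dZ] at h1
  have := H.hN
  omega

/-- a double zero edge joins two consecutive vertices of the outer boundary -/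
lemma dz_edge {x y : ℕ} (hx : x ∈ verts (K \ D)) (hy : y ∈ verts (K \ D)) (hxy : Adj F x y) (hθ : θ x = θ y)
    (hd : d x = d y) : Jump F K x y ∨ Jump F K y x := by
  have hT := H.tight
  rcases H.f1 x hx with h | ⟨i, rfl⟩ | ⟨k, rfl⟩
  · exact absurd ⟨hθ, hd⟩ (hT.dz θ d hT.toAnn x y h hxy)
  · rcases H.f1 y hy with h | ⟨j, rfl⟩ | ⟨k, rfl⟩
    · exact absurd ⟨hθ.symm, hd.symm⟩ (hT.dz θ d hT.toAnn y (C i) h (H.pre.adj_symm hxy))
    · rw [hT.thC, hT.thC] at hθ
      exact absurd (congrArg C hθ) (H.pre.adj_ne hxy)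
    · rw [hT.dC, H.dZ] at hd
      have := H.hN
      omega
  · rcases H.f1 y hy with h | ⟨j, rfl⟩ | ⟨l, rfl⟩
    · exact absurd ⟨hθ.symm, hd.symm⟩ (hT.dz θ d hT.toAnn y (Z k) h (H.pre.adj_symm hxy))
    · rw [hT.dC, H.dZ] at hd
      have := H.hN
      omega
    · exact hT.chZ _ _ (H.f3 k).2.2.1 (H.f3 k).2.2.2 (H.f3 l).2.2.1 (H.f3 l).2.2.2 hxy

lemma jump_asymm {x y : ℕ} (h1 : Jump F K x y) (h2 : Jump F K y x) : False := by
  obtain ⟨k, rfl, rfl⟩ := (H.jumpK _ _).1 h1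
  obtain ⟨l, e1, e2⟩ := (H.jumpK _ _).1 h2
  have e3 := H.cycZ.inj e1
  have e4 := H.cycZ.inj e2
  rw [← e3] at e4
  have : (2 : ZMod z) = 0 := by linear_combination e4
  exact H.z2' this

end TA

/-- the sign of a dart of the annulus -/
def sn (F K : Finset Tri) {b : ℕ} (θ : ℕ → ZMod b) (d : ℕ → ℤ) (ε : ZMod b) (x y : ℕ) : Prop :=
  d x < d y ∨ (d x = d y ∧ θ y = θ x + ε) ∨ (d x = d y ∧ θ x = θ y ∧ Jump F K x y)

namespace TA

variable {F D K : Finset Tri} {b N z : ℕ} {C : ZMod b → ℕ} {θ : ℕ → ZMod b} {d : ℕ → ℤ} {Z : ZMod z → ℕ}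
  (H : TA F D K b N C θ d z Z) {ε : ZMod b} (hε : ε = 1 ∨ ε = -1)

include H hε

lemma eps_ne : ε ≠ 0 := by
  rcases hε with h | h
  · rw [h]; exact z1 H.hb
  · rw [h]; exact neg_ne_zero.2 (z1 H.hb)

lemma eps2_ne : ε + ε ≠ 0 := by
  have := z2 H.hb
  rcases hε with h | h
  · rw [h]; intro h'; apply this; linear_combination h'
  · rw [h]; intro h'; apply this; linear_combination -h'

/-- the three possible steps of `θ` -/
lemma step_cases {x y : ℕ} (hx : x ∈ verts (K \ D)) (hy : y ∈ verts (K \ D)) (hxy : Adj F x y) :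
    θ y = θ x + ε ∨ θ x = θ y + ε ∨ θ x = θ y := by
  obtain ⟨h1, -⟩ := H.f8 x hx y hy hxy
  have h2 : dl θ x y = 1 ∨ dl θ x y = -1 ∨ dl θ x y = 0 := by
    have := abs_le.1 (dl_abs (θ := θ) x y)
    omega
  rcases h2 with h | h | h <;> rw [h] at h1 <;> push_cast at h1 <;> rcases hε with e | e
  · left; rw [e]; linear_combination -h1
  · right; left; rw [e]; linear_combination h1
  · right; left; rw [e]; linear_combination h1
  · left; rw [e]; linear_combination -h1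
  · right; right; linear_combination h1
  · right; right; linear_combination h1

lemma sn_anti {x y : ℕ} (hx : x ∈ verts (K \ D)) (hy : y ∈ verts (K \ D)) (hxy : Adj F x y) :
    sn F K θ d ε x y ↔ ¬ sn F K θ d ε y x := by
  have he := H.eps_ne hε
  have he2 := H.eps2_ne hε
  unfold sn
  rcases lt_trichotomy (d x) (d y) with h | h | h
  · constructor
    · rintro - (h' | ⟨h', -⟩ | ⟨h', -⟩) <;> omega
    · intro _; exact Or.inl h
  · rcases H.step_cases hε hx hy hxy with s | s | s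
    · constructor
      · rintro - (h' | ⟨-, h'⟩ | ⟨-, h', -⟩)
        · omega
        · apply he2
          rw [h'] at s
          linear_combination -s
        · apply he
          rw [h'] at s
          linear_combination -s
      · intro _; exact Or.inr (Or.inl ⟨h, s⟩)
    · constructor
      · rintro (h' | ⟨-, h'⟩ | ⟨-, h', -⟩)
        · omega
        · exfalso
          apply he2
          rw [h'] at s
          linear_combination -s
        · exfalso
          apply he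
          rw [h'] at s
          linear_combination -s
      · intro h'
        exact absurd (Or.inr (Or.inl ⟨h.symm, s⟩)) h'
    · rcases H.dz_edge hx hy hxy s h with j | j
      · constructor
        · rintro - (h' | ⟨-, h'⟩ | ⟨-, -, h'⟩)
          · omega
          · apply he
            rw [s] at h'
            linear_combination -h'
          · exact H.jump_asymm j h'
        · intro _; exact Or.inr (Or.inr ⟨h, s, j⟩)
      · constructor
        · rintro (h' | ⟨-, h'⟩ | ⟨-, -, h'⟩)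
          · omega
          · exfalso
            apply he
            rw [s] at h'
            linear_combination -h'
          · exact absurd j (fun j => H.jump_asymm j h')
        · intro h'
          exact absurd (Or.inr (Or.inr ⟨h.symm, s.symm, j⟩)) h'
  · constructor
    · rintro (h' | ⟨h', -⟩ | ⟨h', -⟩) <;> omega
    · intro h'; exact absurd (Or.inl h) h'

/-- the integer of `ε` -/
lemma dl_eps : ∃ e : ℤ, e ≠ 0 ∧ ∀ x y : ℕ, θ y = θ x + ε → dl θ x y = e := by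
  rcases hε with rfl | rfl
  · exact ⟨1, by norm_num, fun x y h => dl_one h⟩
  · exact ⟨-1, by norm_num, fun x y h => dl_neg_one H.hb (by rw [h]; ring)⟩

/-- the signs are not cyclic on a triangle -/
lemma no_cyc {x p q : ℕ} (hx : x ∈ verts (K \ D)) (hp : p ∈ verts (K \ D)) (hq : q ∈ verts (K \ D))
    (h0 : dl θ x p + dl θ p q + dl θ q x = 0) (h1 : sn F K θ d ε x p) (h2 : sn F K θ d ε p q)
    (h3 : sn F K θ d ε q x) : False := by
  obtain ⟨e, he, hee⟩ := H.dl_eps hε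
  have l1 : d x ≤ d p := by rcases h1 with h | ⟨h, -⟩ | ⟨h, -⟩ <;> omega
  have l2 : d p ≤ d q := by rcases h2 with h | ⟨h, -⟩ | ⟨h, -⟩ <;> omega
  have l3 : d q ≤ d x := by rcases h3 with h | ⟨h, -⟩ | ⟨h, -⟩ <;> omega
  have key : ∀ u v : ℕ, sn F K θ d ε u v → d v ≤ d u → dl θ u v = e ∨ (dl θ u v = 0 ∧ Jump F K u v) := by
    rintro u v (h | ⟨-, h⟩ | ⟨-, h, j⟩) hd
    · omega
    · exact Or.inl (hee _ _ h)
    · right
      refine ⟨?_, j⟩
      unfold dl
      rw [if_neg, if_neg]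
      · rw [h]; intro h'; apply z1 H.hb; linear_combination -h'
      · rw [h]; intro h'; apply z1 H.hb; linear_combination -h'
  rcases key x p h1 (by omega) with a1 | ⟨a1, j1⟩ <;> rcases key p q h2 (by omega) with a2 | ⟨a2, j2⟩ <;>
    rcases key q x h3 (by omega) with a3 | ⟨a3, j3⟩ <;> rw [a1, a2, a3] at h0 <;> try omega
  obtain ⟨i, rfl, e1⟩ := (H.jumpK _ _).1 j1
  obtain ⟨j, rfl, e2⟩ := (H.jumpK _ _).1 j2
  obtain ⟨k, rfl, e3⟩ := (H.jumpK _ _).1 j3
  have e1' := H.cycZ.inj e1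
  have e2' := H.cycZ.inj e2
  have e3' := H.cycZ.inj e3
  apply H.z3'
  linear_combination e1' + e2' + e3'

end TA

/-! ### Bad corners -/

/-- the sign changes at the first corner of the triangle -/
def Bad (F K : Finset Tri) {b : ℕ} (θ : ℕ → ZMod b) (d : ℕ → ℤ) (ε : ZMod b) (t : Tri) : Prop :=
  ¬ (sn F K θ d ε t.1 t.2.1 ↔ sn F K θ d ε t.1 t.2.2)

namespace TA

variable {F D K : Finset Tri} {b N z : ℕ} {C : ZMod b → ℕ} {θ : ℕ → ZMod b} {d : ℕ → ℤ} {Z : ZMod z → ℕ}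
  (H : TA F D K b N C θ d z Z) {ε : ZMod b} (hε : ε = 1 ∨ ε = -1)

include H

lemma vA {x y c : ℕ} (h : (x, y, c) ∈ K \ D) : x ∈ verts (K \ D) ∧ y ∈ verts (K \ D) ∧ c ∈ verts (K \ D) :=
  ⟨mem_verts_of h, mem_verts_of (H.rotA _ _ _ h), mem_verts_of (H.rotA _ _ _ (H.rotA _ _ _ h))⟩

include hε

open Classical in
/-- every triangle of the annulus has exactly one bad corner -/
lemma one_bad {x y c : ℕ} (h : (x, y, c) ∈ K \ D) :
    (if Bad F K θ d ε (x, y, c) then 1 else 0) + (if Bad F K θ d ε (y, c, x) then 1 else 0) +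
      (if Bad F K θ d ε (c, x, y) then 1 else 0) = 1 := by
  obtain ⟨hx, hy, hc⟩ := H.vA h
  have hF := H.subA h
  have axy : Adj F x y := adj_of_mem hF
  have ayc : Adj F y c := adj_of_mem (H.pre.rot _ _ _ hF)
  have acx : Adj F c x := adj_of_mem (H.pre.rot2 hF)
  have e0 := H.f9 x y c h
  have n1 := H.no_cyc hε hx hy hc e0
  have n2 := H.no_cyc hε hx hc hy (by
    have t1 := dl_anti (θ := θ) H.hb x c
    have t2 := dl_anti (θ := θ) H.hb c y
    have t3 := dl_anti (θ := θ) H.hb y x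
    omega)
  have s1 := H.sn_anti hε hy hx (H.pre.adj_symm axy)
  have s2 := H.sn_anti hε hc hy (H.pre.adj_symm ayc)
  have s3 := H.sn_anti hε hx hc (H.pre.adj_symm acx)
  unfold Bad
  simp only
  by_cases a1 : sn F K θ d ε x y <;> by_cases a2 : sn F K θ d ε y c <;> by_cases a3 : sn F K θ d ε c x <;>
    simp only [a1, a2, a3, not_true_eq_false, not_false_eq_true, iff_true, iff_false] at s1 s2 s3 <;>
    simp [a1, a2, a3, s1, s2, s3]
  · exact n1 a1 a2 a3
  · exact n2 s3 s2 s1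

open Classical in
lemma card_bad : 3 * ((K \ D).filter (Bad F K θ d ε)).card = (K \ D).card := by
  rw [Finset.card_filter]
  have h1 := sum_rt H.rotA (fun t => if Bad F K θ d ε t then 1 else 0)
  have h2 := sum_rt H.rotA (fun t => if Bad F K θ d ε (rt t) then 1 else 0)
  have h3 : ∑ t ∈ K \ D, ((if Bad F K θ d ε t then 1 else 0) + (if Bad F K θ d ε (rt t) then 1 else 0) +
      (if Bad F K θ d ε (rt (rt t)) then 1 else 0)) = ∑ t ∈ K \ D, 1 :=
    Finset.sum_congr rfl fun t ht => by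
      obtain ⟨x, y, c⟩ := t
      exact H.one_bad hε ht
  rw [Finset.sum_add_distrib, Finset.sum_add_distrib, h2, h1, ← Finset.card_eq_sum_ones] at h3
  omega

omit hε in
lemma intA {x : ℕ} (hx : IntV F D K x) : x ∈ verts (K \ D) := by
  obtain ⟨p, q, h⟩ := mem_verts.1 hx.1
  exact mem_verts_of (H.f4 x hx p q (H.sideZ.sub h))

omit hε in
/-- at an inner vertex the sign is `sg` -/
lemma sn_inner {x y : ℕ} (hx : IntV F D K x) (hxy : Adj F x y) : sn F K θ d ε x y ↔ sg θ d ε x y := by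
  unfold sn sg
  constructor
  · rintro (h | ⟨h, h'⟩ | ⟨h, h', -⟩)
    · exact Or.inl h
    · exact Or.inr ⟨h, h'⟩
    · exact absurd ⟨h', h⟩ (H.tight.dz θ d H.tight.toAnn x y hx hxy)
  · rintro (h | ⟨h, h'⟩)
    · exact Or.inl h
    · exact Or.inr (Or.inl ⟨h, h'⟩)

omit hε in
open Classical in
lemma ch_inner (h6 : P6Stmt) {x : ℕ} (hx : IntV F D K x) :
    2 ≤ ((K \ D).filter (fun t => t.1 = x ∧ Bad F K θ d ε t)).card := by
  obtain ⟨⟨y1, a1, e1⟩, ⟨y2, a2, e2⟩, -, -⟩ := h6 F D K b N C θ d H.sph H.hb H.hN H.tight x hx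
  have s1 : sn F K θ d ε x y1 := Or.inl (by omega)
  have s2 : ¬ sn F K θ d ε x y2 := by
    rintro (h | ⟨h, -⟩ | ⟨h, -⟩) <;> omega
  obtain ⟨p, q, m, hp, hq⟩ := change H.sph a1 a2 (X := fun y => sn F K θ d ε x y) s1 s2
  obtain ⟨p', q', m', hp', hq'⟩ := change H.sph a2 a1 (X := fun y => ¬ sn F K θ d ε x y) s2 (not_not.2 s1)
  rw [not_not] at hq'
  have hsub : ({(x, p, q), (x, p', q')} : Finset Tri) ⊆ (K \ D).filter (fun t => t.1 = x ∧ Bad F K θ d ε t) := by
    intro t ht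
    rw [Finset.mem_insert, Finset.mem_singleton] at ht
    rw [Finset.mem_filter]
    rcases ht with rfl | rfl
    · exact ⟨H.f4 x hx _ _ m, rfl, fun h => hq (h.1 hp)⟩
    · exact ⟨H.f4 x hx _ _ m', rfl, fun h => hp' (h.2 hq')⟩
  refine le_trans ?_ (Finset.card_le_card hsub)
  rw [Finset.card_pair]
  intro h
  rw [Prod.mk.injEq, Prod.mk.injEq] at h
  rw [h.2.1] at hp
  exact hp' hp

open Classical in
lemma ch_C (i : ZMod b) : 1 ≤ ((K \ D).filter (fun t => t.1 = C i ∧ Bad F K θ d ε t)).card := by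
  have hT := H.tight
  have hCi := H.f2 i
  have hadj : Adj F (C i) (C (i + 1)) := hT.cyc.adj i
  have hadj' : Adj F (C i) (C (i - 1)) := by
    have h := hT.cyc.adj (i - 1)
    rw [sub_add_cancel] at h
    exact H.pre.adj_symm h
  have hK : ∀ p q, (C i, p, q) ∈ F → (C i, p, q) ∈ K := by
    intro p q h
    by_contra hc
    exact hCi.2.2 (mem_verts_of (Finset.mem_sdiff.2 ⟨h, hc⟩))
  -- the two neighbours on the cycle have different signs
  have hdiff : ¬ (sn F K θ d ε (C i) (C (i - 1)) ↔ sn F K θ d ε (C i) (C (i + 1))) := by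
    have he := H.eps_ne hε
    have hJ : ∀ j, ¬ Jump F K (C i) (C j) := by
      intro j h
      obtain ⟨k, h1, -⟩ := (H.jumpK _ _).1 h
      exact H.C_ne_Z i k h1
    have h1 : ∀ j, sn F K θ d ε (C i) (C j) ↔ j = i + ε := by
      intro j
      unfold sn
      rw [hT.dC, hT.dC, hT.thC, hT.thC]
      constructor
      · rintro (h | ⟨-, h⟩ | ⟨-, -, h⟩)
        · omega
        · exact h
        · exact absurd h (hJ j)
      · intro h
        exact Or.inr (Or.inl ⟨rfl, h⟩)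
    rw [h1, h1]
    have h2 := z2 H.hb
    rcases hε with rfl | rfl
    · intro h
      have h3 := h.2 rfl
      apply h2
      linear_combination -h3
    · intro h
      have h3 := h.1 (by ring)
      apply h2
      linear_combination h3
  rw [Nat.one_le_iff_ne_zero, ← Nat.pos_iff_ne_zero, Finset.card_pos]
  by_contra hne
  rw [Finset.not_nonempty_iff_eq_empty] at hne
  have hno : ∀ p q, (C i, p, q) ∈ K \ D → (sn F K θ d ε (C i) p ↔ sn F K θ d ε (C i) q) := by
    intro p q h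
    by_contra hc
    have : (C i, p, q) ∈ (K \ D).filter (fun t => t.1 = C i ∧ Bad F K θ d ε t) :=
      Finset.mem_filter.2 ⟨h, rfl, hc⟩
    rw [hne] at this
    exact absurd this (Finset.notMem_empty _)
  have key := link_closed H.sph (v := C i) (y0 := C (i + 1)) hadj
    (X := fun p => (sn F K θ d ε (C i) p ↔ sn F K θ d ε (C i) (C (i + 1))) ∧ ∃ c, (C i, p, c) ∈ K \ D) ⟨Iff.rfl, by
      obtain ⟨c, hc⟩ := hadj
      refine ⟨c, Finset.mem_sdiff.2 ⟨hK _ _ hc, fun hD => ?_⟩⟩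
      have hj : Jump F D (C (i + 1)) (C i) := (H.jumpD _ _).2 ⟨i + 1, rfl, by rw [add_sub_cancel_right]⟩
      obtain ⟨-, d', h1, h2⟩ := hj
      have := H.pre.uniq _ _ _ _ hc h1
      rw [this] at hD
      exact h2 hD⟩ (by
      rintro p q hpq ⟨h1, c, hc⟩
      have e := H.pre.uniq _ _ _ _ hpq (H.subA hc)
      rw [← e] at hc
      have h2 := hno p q hc
      refine ⟨h2.symm.trans h1, ?_⟩
      obtain ⟨c', hc'⟩ := adj_of_mem' H.pre hpq
      refine ⟨c', Finset.mem_sdiff.2 ⟨hK _ _ hc', fun hD => ?_⟩⟩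
      have hj : Jump F D (C i) q := by
        refine ⟨⟨c', hD⟩, p, H.pre.rot2 hpq, fun h => ?_⟩
        exact (Finset.mem_sdiff.1 hc).2 (hT.sideD.rot _ _ _ h)
      obtain ⟨k, h3, h4⟩ := (H.jumpD _ _).1 hj
      have h5 := hT.cyc.inj h3
      rw [← h5] at h4
      rw [h4] at h2
      exact hdiff (h2.symm.trans h1))
  exact hdiff (key _ hadj').1

omit hε in
lemma Z_adj {k l : ZMod z} (h : Adj F (Z k) (Z l)) : l = k - 1 ∨ l = k + 1 := by
  rcases H.tight.chZ _ _ (H.f3 k).2.2.1 (H.f3 k).2.2.2 (H.f3 l).2.2.1 (H.f3 l).2.2.2 h with j | j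
  · obtain ⟨i, e1, e2⟩ := (H.jumpK _ _).1 j
    have e1' := H.cycZ.inj e1
    have e2' := H.cycZ.inj e2
    left; rw [e2', e1']
  · obtain ⟨i, e1, e2⟩ := (H.jumpK _ _).1 j
    have e1' := H.cycZ.inj e1
    have e2' := H.cycZ.inj e2
    right; rw [e2', e1']; ring

omit hε in
/-- the neighbours of an outer vertex in the annulus that are not on the outer boundary are lower -/
lemma low_Z (h6 : P6Stmt) {k : ZMod z} {p : ℕ} (hp : p ∈ verts (K \ D)) (hkp : Adj F (Z k) p)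
    (h1 : p ≠ Z (k - 1)) (h2 : p ≠ Z (k + 1)) : d p = N - 1 := by
  obtain ⟨-, h8⟩ := H.f8 _ (H.f3 k).1 _ hp hkp
  rw [H.dZ] at h8
  have h8' := abs_le.1 h8
  have hN := H.hN
  rcases H.f1 p hp with h | ⟨i, rfl⟩ | ⟨l, rfl⟩
  · obtain ⟨-, -, -, h9⟩ := h6 F D K b N C θ d H.sph H.hb H.hN H.tight p h
    omega
  · rw [H.tight.dC] at h8'
    omega
  · rcases H.Z_adj hkp with rfl | rfl
    · exact absurd rfl h1
    · exact absurd rfl h2

omit hε in
lemma notsn_Z {k : ZMod z} {p : ℕ} (hp : d p = N - 1) : ¬ sn F K θ d ε (Z k) p := by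
  unfold sn
  rw [H.dZ]
  rintro (h | ⟨h, -⟩ | ⟨h, -⟩) <;> omega

omit hε in
lemma face_Z {k : ZMod z} {p q : ℕ} (h : (Z k, p, q) ∈ K) : (Z k, p, q) ∈ K \ D :=
  Finset.mem_sdiff.2 ⟨h, fun h' => (H.f3 k).2.1 (mem_verts_of h')⟩

omit hε in
open Classical in
lemma ch_Z (h6 : P6Stmt) (k : ZMod z) : (if sn F K θ d ε (Z k) (Z (k - 1)) then 1 else 0) +
    (if sn F K θ d ε (Z k) (Z (k + 1)) then 1 else 0) ≤
      ((K \ D).filter (fun t => t.1 = Z k ∧ Bad F K θ d ε t)).card := by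
  obtain ⟨q, hq⟩ := ((H.jumpK _ _).2 ⟨k, rfl, rfl⟩ : Jump F K (Z k) (Z (k - 1))).1
  obtain ⟨p, hp⟩ := ((H.jumpK _ _).2 ⟨k + 1, rfl, by rw [add_sub_cancel_right]⟩ : Jump F K (Z (k + 1)) (Z k)).1
  have hp' : (Z k, p, Z (k + 1)) ∈ K := H.sideZ.rot _ _ _ hp
  have hqA := H.face_Z hq
  have hpA := H.face_Z hp'
  have hqF := H.subA hqA
  have hpF := H.subA hpA
  have hne : ¬ Adj F (Z (k - 1)) (Z (k + 1)) := by
    intro h
    rcases H.Z_adj h with e | e
    · apply H.z3'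
      linear_combination e
    · apply H.z1'
      linear_combination e
  have q1 : q ≠ Z (k + 1) := by
    rintro rfl
    exact hne ⟨_, H.pre.rot _ _ _ hqF⟩
  have q2 : q ≠ Z (k - 1) := fun h => (H.pre.nd hqF).2.1 h.symm
  have p1 : p ≠ Z (k - 1) := by
    rintro rfl
    exact hne ⟨_, H.pre.rot _ _ _ hpF⟩
  have p2 : p ≠ Z (k + 1) := (H.pre.nd hpF).2.1
  have sq : ¬ sn F K θ d ε (Z k) q := H.notsn_Z (H.low_Z h6 (H.vA hqA).2.2 (adj_of_mem' H.pre hqF) q2 q1)
  have sp : ¬ sn F K θ d ε (Z k) p := H.notsn_Z (H.low_Z h6 (H.vA hpA).2.1 (adj_of_mem hpF) p1 p2)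
  by_cases a1 : sn F K θ d ε (Z k) (Z (k - 1)) <;> by_cases a2 : sn F K θ d ε (Z k) (Z (k + 1))
  · rw [if_pos a1, if_pos a2]
    have hsub : ({(Z k, Z (k - 1), q), (Z k, p, Z (k + 1))} : Finset Tri) ⊆
        (K \ D).filter (fun t => t.1 = Z k ∧ Bad F K θ d ε t) := by
      intro t ht
      rw [Finset.mem_insert, Finset.mem_singleton] at ht
      rw [Finset.mem_filter]
      rcases ht with rfl | rfl
      · exact ⟨hqA, rfl, fun h => sq (h.1 a1)⟩
      · exact ⟨hpA, rfl, fun h => sp (h.2 a2)⟩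
    refine le_trans ?_ (Finset.card_le_card hsub)
    rw [Finset.card_pair]
    intro h
    rw [Prod.mk.injEq, Prod.mk.injEq] at h
    exact p1 h.2.1.symm
  · rw [if_pos a1, if_neg a2, add_zero, Nat.one_le_iff_ne_zero, ← Nat.pos_iff_ne_zero, Finset.card_pos]
    exact ⟨(Z k, Z (k - 1), q), Finset.mem_filter.2 ⟨hqA, rfl, fun h => sq (h.1 a1)⟩⟩
  · rw [if_neg a1, if_pos a2, zero_add, Nat.one_le_iff_ne_zero, ← Nat.pos_iff_ne_zero, Finset.card_pos]
    exact ⟨(Z k, p, Z (k + 1)), Finset.mem_filter.2 ⟨hpA, rfl, fun h => sp (h.2 a2)⟩⟩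
  · rw [if_neg a1, if_neg a2]; exact Nat.zero_le _

open Classical in
lemma sum_Z [NeZero z] (h6 : P6Stmt) :
    z ≤ ∑ k : ZMod z, ((K \ D).filter (fun t => t.1 = Z k ∧ Bad F K θ d ε t)).card := by
  have h1 : ∑ k : ZMod z, ((if sn F K θ d ε (Z k) (Z (k - 1)) then 1 else 0) +
      (if sn F K θ d ε (Z k) (Z (k + 1)) then 1 else 0)) = z := by
    rw [Finset.sum_add_distrib]
    have h2 : ∑ k : ZMod z, (if sn F K θ d ε (Z k) (Z (k + 1)) then 1 else 0) =
        ∑ k : ZMod z, (if sn F K θ d ε (Z (k - 1)) (Z k) then 1 else 0) := by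
      rw [← (Equiv.subRight (1 : ZMod z)).sum_comp]
      refine Finset.sum_congr rfl fun k _ => ?_
      simp only [Equiv.subRight_apply, sub_add_cancel]
    rw [h2, ← Finset.sum_add_distrib]
    have h3 : ∀ k : ZMod z, ((if sn F K θ d ε (Z k) (Z (k - 1)) then 1 else 0) +
      (if sn F K θ d ε (Z (k - 1)) (Z k) then 1 else 0)) = 1 := by
      intro k
      have hadj : Adj F (Z (k - 1)) (Z k) := by
        have h := H.cycZ.adj (k - 1)
        rwa [sub_add_cancel] at h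
      have := H.sn_anti hε (H.f3 k).1 (H.f3 (k - 1)).1 (H.pre.adj_symm hadj)
      by_cases a : sn F K θ d ε (Z (k - 1)) (Z k)
      · rw [if_pos a, if_neg]
        intro h; exact this.1 h a
      · rw [if_neg a, if_pos (this.2 a)]
    rw [Finset.sum_congr rfl fun k _ => h3 k]
    simp [ZMod.card]
  conv_lhs => rw [← h1]
  exact Finset.sum_le_sum fun k _ => H.ch_Z h6 k

open Classical in
/-- the count -/
theorem count (h6 : P6Stmt) (h8 : A8Stmt) {x : ℕ} (hx : IntV F D K x) :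
    ((K \ D).filter (fun t => t.1 = x ∧ Bad F K θ d ε t)).card = 2 := by
  have hb := H.hb
  have hz := H.hz
  have : NeZero z := ⟨by omega⟩
  have : NeZero b := ⟨by omega⟩
  let I : Finset ℕ := (verts K).filter (fun x => IntV F D K x)
  let CC : Finset ℕ := Finset.univ.image C
  let ZZ : Finset ℕ := Finset.univ.image Z
  have hI : ∀ x, x ∈ I ↔ IntV F D K x := fun x => by
    simp only [I, Finset.mem_filter, and_iff_right_iff_imp]
    exact fun h => h.1
  have hCC : ∀ x, x ∈ CC ↔ ∃ i, x = C i := fun x => by simp [CC, eq_comm]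
  have hZZ : ∀ x, x ∈ ZZ ↔ ∃ i, x = Z i := fun x => by simp [ZZ, eq_comm]
  have cC : CC.card = b := by
    rw [Finset.card_image_of_injective _ H.tight.cyc.inj, Finset.card_univ, ZMod.card]
  have cZ : ZZ.card = z := by
    rw [Finset.card_image_of_injective _ H.cycZ.inj, Finset.card_univ, ZMod.card]
  have dIC : Disjoint I CC := by
    rw [Finset.disjoint_left]
    intro a h1 h2
    obtain ⟨i, rfl⟩ := (hCC a).1 h2
    exact ((hI _).1 h1).2.1 (H.f2 i).2.1
  have dIZ : Disjoint I ZZ := by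
    rw [Finset.disjoint_left]
    intro a h1 h2
    obtain ⟨i, rfl⟩ := (hZZ a).1 h2
    exact ((hI _).1 h1).2.2 (H.f3 i).2.2.2
  have dCZ : Disjoint CC ZZ := by
    rw [Finset.disjoint_left]
    intro a h1 h2
    obtain ⟨i, rfl⟩ := (hCC a).1 h1
    obtain ⟨k, hk⟩ := (hZZ _).1 h2
    exact H.C_ne_Z i k hk
  -- vertices of the annulus
  have vA' : verts (K \ D) = (I ∪ CC) ∪ ZZ := by
    ext a
    rw [Finset.mem_union, Finset.mem_union, hI, hCC, hZZ]
    constructor
    · intro h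
      rcases H.f1 a h with h | h | h
      · exact Or.inl (Or.inl h)
      · exact Or.inl (Or.inr h)
      · exact Or.inr h
    · rintro ((h | ⟨i, rfl⟩) | ⟨k, rfl⟩)
      · exact H.intA h
      · exact (H.f2 i).1
      · exact (H.f3 k).1
  -- vertices of `K`
  have vK : verts K = (verts D ∪ I) ∪ ZZ := by
    ext a
    rw [Finset.mem_union, Finset.mem_union, hI, hZZ]
    constructor
    · intro h
      by_cases h1 : a ∈ verts (F \ K)
      · exact Or.inr (H.f6 a h h1)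
      · by_cases h2 : a ∈ verts D
        · exact Or.inl (Or.inl h2)
        · exact Or.inl (Or.inr ⟨h, h2, h1⟩)
    · rintro ((h | h) | ⟨k, rfl⟩)
      · obtain ⟨p, q, h⟩ := mem_verts.1 h
        exact mem_verts_of (H.tight.sub h)
      · exact h.1
      · exact (H.f3 k).2.2.1
  have dDI : Disjoint (verts D) I := by
    rw [Finset.disjoint_left]
    intro a h1 h2
    exact ((hI _).1 h2).2.1 h1
  have dDIZ : Disjoint (verts D ∪ I) ZZ := by
    rw [Finset.disjoint_union_left]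
    refine ⟨?_, dIZ⟩
    rw [Finset.disjoint_left]
    intro a h1 h2
    obtain ⟨k, rfl⟩ := (hZZ a).1 h2
    exact (H.f3 k).2.1 h1
  have cK : (verts K).card = (verts D).card + I.card + z := by
    rw [vK, Finset.card_union_of_disjoint dDIZ, Finset.card_union_of_disjoint dDI, cZ]
  have e1 := h8 F H.sph z (fun i => Z (-i)) K (cyc_neg H.pre H.cycZ) H.sideZ
  have e2 := h8 F H.sph b (fun i => C (-i)) D (cyc_neg H.pre H.tight.cyc) H.tight.sideD
  have e3 := Finset.card_sdiff_add_card_eq_card H.tight.sub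
  have e4 := H.card_bad hε
  -- the fibres
  have e5 : ((K \ D).filter (Bad F K θ d ε)).card =
      ∑ a ∈ verts (K \ D), ((K \ D).filter (fun t => t.1 = a ∧ Bad F K θ d ε t)).card := by
    rw [Finset.card_eq_sum_card_fiberwise (f := fun t : Tri => t.1) (t := verts (K \ D))]
    · refine Finset.sum_congr rfl fun a _ => ?_
      rw [Finset.filter_filter]
      congr 1
      ext t
      simp only [Finset.mem_filter]
      tauto
    · intro t ht
      obtain ⟨x, y, c⟩ := t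
      exact mem_verts_of (Finset.mem_filter.1 ht).1
  rw [vA', Finset.sum_union (by rw [Finset.disjoint_union_left]; exact ⟨dIZ, dCZ⟩), Finset.sum_union dIC] at e5
  have e6 : b ≤ ∑ a ∈ CC, ((K \ D).filter (fun t => t.1 = a ∧ Bad F K θ d ε t)).card := by
    calc b = ∑ a ∈ CC, 1 := by rw [← Finset.card_eq_sum_ones, cC]
      _ ≤ _ := Finset.sum_le_sum fun a ha => by
        obtain ⟨i, rfl⟩ := (hCC a).1 ha
        exact H.ch_C hε i
  have e7 : z ≤ ∑ a ∈ ZZ, ((K \ D).filter (fun t => t.1 = a ∧ Bad F K θ d ε t)).card := by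
    rw [Finset.sum_image fun a _ b _ h => H.cycZ.inj h]
    exact H.sum_Z hε h6
  -- the inner vertices
  have hxI : x ∈ I := (hI x).2 hx
  have e8 : ∑ a ∈ I, ((K \ D).filter (fun t => t.1 = a ∧ Bad F K θ d ε t)).card ≤ ∑ a ∈ I, 2 := by
    rw [Finset.sum_const, smul_eq_mul]
    omega
  have e9 : ∀ a ∈ I, 2 ≤ ((K \ D).filter (fun t => t.1 = a ∧ Bad F K θ d ε t)).card := fun a ha =>
    H.ch_inner h6 ((hI a).1 ha)
  have e10 := (Finset.sum_eq_sum_iff_of_le e9).1 (le_antisymm (Finset.sum_le_sum e9) e8)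
  exact (e10 x hxI).symm

end TA

open Classical in
theorem p7 (h0 : P0Stmt) (h6 : P6Stmt) (h7 : A7Stmt) (h8 : A8Stmt) (h20 : A20Stmt) : P7Stmt := by
  intro F D K b N C θ d ε hF hb hN hT hε x hx
  obtain ⟨z, Z, H⟩ := exists_TA h0 h7 h20 hF hb hN hT
  rw [← H.count hε h6 h8 hx]
  congr 1
  ext t
  obtain ⟨a, p, q⟩ := t
  simp only [Finset.mem_filter]
  constructor
  · rintro ⟨h1, rfl, h2⟩
    refine ⟨H.f4 a hx p q h1, rfl, fun h => h2 ?_⟩
    have e1 := H.sn_inner (ε := ε) hx (adj_of_mem h1)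
    have e2 := H.sn_inner (ε := ε) hx (adj_of_mem' H.pre h1)
    exact e1.symm.trans (h.trans e2)
  · rintro ⟨h1, rfl, h2⟩
    have h3 := H.subA h1
    refine ⟨h3, rfl, fun h => h2 ?_⟩
    have e1 := H.sn_inner (ε := ε) hx (adj_of_mem h3)
    have e2 := H.sn_inner (ε := ε) hx (adj_of_mem' H.pre h3)
    exact e1.trans (h.trans e2.symm)

end Pool.Agent.H43.RCR
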