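import Pool.Agent.H43.RCR.P7

/-!
# Project RCR, module P9: no folds
-/

namespace Pool.Agent.H43.RCR

open Finset Pool.Agent.H3.RCR

namespace TA

variable {F D K : Finset Tri} {b N z : ℕ} {C : ZMod b → ℕ} {θ : ℕ → ZMod b} {d : ℕ → ℤ} {Z : ZMod z → ℕ}
  (H : TA F D K b N C θ d z Z)

include H

lemma adjA {x y : ℕ} (hx : x ∈ verts (K \ D)) (hy : y ∈ verts (K \ D)) (hxy : Adj F x y) :
    θ y = θ x + 1 ∨ θ x = θ y + 1 ∨ θ x = θ y := H.step_cases (Or.inl rfl) hx hy hxy

/-- `u` is adjacent to `x` and `y`, and `θ x = θ y + 1` -/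
lemma between {x y u : ℕ} (hx : x ∈ verts (K \ D)) (hy : y ∈ verts (K \ D)) (hu : u ∈ verts (K \ D))
    (hxu : Adj F x u) (hyu : Adj F y u) (h : θ x = θ y + 1) : θ u = θ y ∨ θ u = θ y + 1 := by
  have e1 := z1 H.hb
  have e2 := z2 H.hb
  have e3 := z3 H.hb
  rcases H.adjA hy hu hyu with h1 | h1 | h1
  · exact Or.inr h1
  · exfalso
    rcases H.adjA hx hu hxu with h2 | h2 | h2
    · apply e3; linear_combination -h - h1 - h2
    · apply e1; linear_combination h2 - h - h1
    · apply e2; linear_combination h2 - h - h1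
  · exact Or.inl h1.symm

lemma not_two {x y u : ℕ} (hy : y ∈ verts (K \ D)) (hu : u ∈ verts (K \ D)) (hyu : Adj F y u)
    (h : θ x = θ y + 1) : θ u ≠ θ x + 1 := by
  intro h1
  have e1 := z1 H.hb
  have e2 := z2 H.hb
  have e3 := z3 H.hb
  rcases H.adjA hy hu hyu with h2 | h2 | h2
  · apply e1; linear_combination h2 - h1 - h
  · apply e3; linear_combination -h1 - h2 - h
  · apply e2; linear_combination -h1 - h2 - h

/-- bounds of `d` at inner vertices -/
lemma d_inner (h6 : P6Stmt) {x : ℕ} (hx : IntV F D K x) : 1 ≤ d x ∧ d x + 1 ≤ N :=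
  (h6 F D K b N C θ d H.sph H.hb H.hN H.tight x hx).2.2

/-- vertices of the annulus at an intermediate level are inner -/
lemma inner_of_d {y : ℕ} (hy : y ∈ verts (K \ D)) (h1 : 1 ≤ d y) (h2 : d y + 1 ≤ N) : IntV F D K y := by
  rcases H.f1 y hy with h | ⟨i, rfl⟩ | ⟨k, rfl⟩
  · exact h
  · rw [H.tight.dC] at h1; omega
  · rw [H.dZ] at h2; omega

/-- vertices at level zero are on the inner boundary -/
lemma C_of_d (h6 : P6Stmt) {y : ℕ} (hy : y ∈ verts (K \ D)) (h1 : d y = 0) : ∃ i, y = C i := by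
  have := H.hN
  rcases H.f1 y hy with h | h | ⟨k, rfl⟩
  · have := H.d_inner h6 h; omega
  · exact h
  · rw [H.dZ] at h1; omega

/-- vertices at level `N` are on the outer boundary -/
lemma Z_of_d (h6 : P6Stmt) {y : ℕ} (hy : y ∈ verts (K \ D)) (h1 : d y = N) : ∃ k, y = Z k := by
  have := H.hN
  rcases H.f1 y hy with h | ⟨i, rfl⟩ | h
  · have := H.d_inner h6 h; omega
  · rw [H.tight.dC] at h1; omega
  · exact h

/-- no double zero edge at a vertex below the outer boundary -/
lemma dz' {x y : ℕ} (hx : x ∈ verts (K \ D)) (hy : y ∈ verts (K \ D)) (hxy : Adj F x y) (h : d x < N)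
    (hd : d x = d y) : θ x ≠ θ y := by
  intro hθ
  rcases H.dz_edge hx hy hxy hθ hd with j | j
  · obtain ⟨k, rfl, -⟩ := (H.jumpK _ _).1 j
    rw [H.dZ] at h; omega
  · obtain ⟨k, rfl, -⟩ := (H.jumpK _ _).1 j
    rw [hd, H.dZ] at h; omega

/-- a special vertex -/
def Sp (F D K : Finset Tri) {b : ℕ} (θ : ℕ → ZMod b) (d : ℕ → ℤ) (y : ℕ) : Prop :=
  ∃ x q q', IntV F D K x ∧ (y, q', x) ∈ F ∧ (y, x, q) ∈ F ∧ d x = d y - 1 ∧ d q = d y ∧ d q' = d y ∧
    θ x = θ y + 1 ∧ (θ q = θ y ∨ θ q = θ y + 1) ∧ (θ q' = θ y ∨ θ q' = θ y + 1)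

/-- a local minimum -/
def LM (F D K : Finset Tri) {b : ℕ} (θ : ℕ → ZMod b) (d : ℕ → ℤ) (x : ℕ) : Prop :=
  IntV F D K x ∧ ∀ w, Adj F x w → d w = d x → θ w = θ x + 1

/-- the two neighbours in the link of a local minimum of a vertex with smaller `θ` -/
lemma LM_link {x y : ℕ} (hx : LM F D K θ d x) (hxy : Adj F x y) (h : θ x = θ y + 1) :
    (d y = d x - 1 ∨ d y = d x + 1) ∧ ∃ u u', (x, u, y) ∈ F ∧ (x, y, u') ∈ F ∧
      d u = d y ∧ d u' = d y ∧ (θ u = θ y ∨ θ u = θ y + 1) ∧ (θ u' = θ y ∨ θ u' = θ y + 1) := by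
  have hxA := H.intA hx.1
  have hyA := H.f5 x hx.1 y hxy
  have e2 := z2 H.hb
  have h1 : d y = d x - 1 ∨ d y = d x + 1 := by
    have h8 := abs_le.1 (H.f8 x hxA y hyA hxy).2
    have : d y ≠ d x := by
      intro hd
      have := hx.2 y hxy hd
      apply e2; linear_combination -this - h
    omega
  refine ⟨h1, ?_⟩
  have key : ∀ u, Adj F x u → Adj F y u → d u = d y ∧ (θ u = θ y ∨ θ u = θ y + 1) := by
    intro u hxu hyu
    have huA := H.f5 x hx.1 u hxu
    refine ⟨?_, H.between hxA hyA huA hxu hyu h⟩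
    have h2 : d u ≠ d x := fun hd => H.not_two hyA huA hyu h (hx.2 u hxu hd)
    have h3 := abs_le.1 (H.f8 x hxA u huA hxu).2
    have h4 := abs_le.1 (H.f8 y hyA u huA hyu).2
    omega
  obtain ⟨u, hu⟩ := H.pre.pred hxy
  obtain ⟨u', hu'⟩ := hxy
  have k1 := key u (adj_of_mem hu) (H.pre.adj_symm (adj_of_mem (H.pre.rot _ _ _ hu)))
  have k2 := key u' (adj_of_mem' H.pre hu') (adj_of_mem (H.pre.rot _ _ _ hu'))
  exact ⟨u, u', hu, hu', k1.1, k2.1, k1.2, k2.2⟩

/-- an upper neighbour with smaller `θ` of a local minimum is special -/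
lemma Sp_of_LM {x y : ℕ} (hx : LM F D K θ d x) (hxy : Adj F x y) (h : θ x = θ y + 1) (hd : d y = d x + 1) :
    Sp F D K θ d y := by
  obtain ⟨-, u, u', hu, hu', d1, d2, t1, t2⟩ := H.LM_link hx hxy h
  exact ⟨x, u, u', hx.1, H.pre.rot _ _ _ hu', H.pre.rot2 hu, by omega, d1, d2, h, t1, t2⟩

/-- an inner special vertex is a local minimum and has only one lower neighbour -/
lemma LM_of_Sp (h6 : P6Stmt) (h8 : P8Stmt) {y : ℕ} (hy : IntV F D K y) (hs : Sp F D K θ d y) :
    LM F D K θ d y ∧ ∀ w, Adj F y w → d w = d y - 1 → θ w = θ y + 1 := by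
  obtain ⟨x, q, q', hx, m1, m2, dx, dq, dq', tx, tq, tq'⟩ := hs
  have hyA := H.intA hy
  have hyN := H.d_inner h6 hy
  obtain ⟨p1, p2, L⟩ := h8 F D K b N C θ d H.sph H.hb H.hN H.tight y hy
  have aq : Adj F y q := adj_of_mem' H.pre m2
  have aq' : Adj F y q' := adj_of_mem m1
  have eq1 : q = p1 := by
    rcases L.all q aq dq with h | h
    · exact h
    · obtain ⟨a, ha, hda⟩ := L.pred_q
      rw [← h] at ha
      have := H.pre.uniq' (H.pre.rot _ _ _ ha) (H.pre.rot _ _ _ m2)
      rw [this] at hda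
      omega
  have eq2 : q' = p2 := by
    rcases L.all q' aq' dq' with h | h
    · obtain ⟨a, ha, hda⟩ := L.succ_p
      rw [← h] at ha
      have := H.pre.uniq _ _ _ _ ha m1
      rw [this] at hda
      omega
    · exact h
  have aqA := H.f5 y hy q aq
  have aqA' := H.f5 y hy q' aq'
  have tq2 : θ q = θ y + 1 := by
    rcases tq with h | h
    · exact absurd h.symm (H.dz' hyA aqA aq (by omega) dq.symm)
    · exact h
  have tq2' : θ q' = θ y + 1 := by
    rcases tq' with h | h
    · exact absurd h.symm (H.dz' hyA aqA' aq' (by omega) dq'.symm)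
    · exact h
  refine ⟨⟨hy, fun w hw hd => ?_⟩, ?_⟩
  · rcases L.all w hw hd with h | h
    · rw [h, ← eq1]; exact tq2
    · rw [h, ← eq2]; exact tq2'
  · have key := link_closed H.sph (v := y) (y0 := x) (adj_of_mem m2) (X := fun w => w = x ∨ d y ≤ d w) (Or.inl rfl)
      (by
        intro w w' hw h
        rcases h with rfl | h
        · right
          rw [H.pre.uniq _ _ _ _ hw m2, dq]
        · by_contra hc
          push Not at hc
          have a1 := H.f5 y hy w (adj_of_mem hw)
          have a2 := H.f5 y hy w' (adj_of_mem' H.pre hw)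
          have h3 := abs_le.1 (H.f8 w a1 w' a2 (adj_of_mem (H.pre.rot _ _ _ hw))).2
          have h4 := abs_le.1 (H.f8 y hyA w' a2 (adj_of_mem' H.pre hw)).2
          rcases L.all w (adj_of_mem hw) (by omega) with h5 | h5
          · obtain ⟨a, ha, hda⟩ := L.succ_p
            rw [h5] at hw
            have := H.pre.uniq _ _ _ _ ha hw
            rw [this] at hda
            omega
          · rw [← eq2] at h5
            rw [h5] at hw
            exact hc.1 (H.pre.uniq _ _ _ _ hw m1))
    intro w hw hd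
    rcases key w hw with h | h
    · rw [h]; exact tx
    · omega

/-- a vertex of the outer boundary is not special -/
lemma not_Sp_Z (h6 : P6Stmt) (k : ZMod z) (hs : Sp F D K θ d (Z k)) : False := by
  obtain ⟨x, q, q', hx, m1, m2, dx, dq, dq', tx, tq, tq'⟩ := hs
  rw [H.dZ] at dq dq'
  have A1 := H.f4 x hx _ _ (H.pre.rot2 m1)
  have A2 := H.f4 x hx _ _ (H.pre.rot _ _ _ m2)
  have A1' := H.rotA _ _ _ A1
  have A2' := H.rotA _ _ _ (H.rotA _ _ _ A2)
  have K1 := (Finset.mem_sdiff.1 A1').1
  have K2 := (Finset.mem_sdiff.1 A2').1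
  have aq : Adj F (Z k) q := adj_of_mem' H.pre m2
  have aq' : Adj F (Z k) q' := adj_of_mem m1
  have eq1 : q = Z (k + 1) := by
    obtain ⟨l, hl⟩ := H.Z_of_d h6 (H.vA A2').2.2 dq
    rw [hl] at aq
    rcases H.Z_adj aq with h | h
    · exfalso
      obtain ⟨-, c, h1, h2⟩ := (H.jumpK (Z k) (Z (k - 1))).2 ⟨k, rfl, rfl⟩
      rw [hl, h] at K2
      have K2' := H.sideZ.rot _ _ _ (H.sideZ.rot _ _ _ K2)
      rw [H.pre.uniq _ _ _ _ h1 (H.sideZ.sub K2')] at h2
      exact h2 K2'
    · rw [hl, h]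
  have eq2 : q' = Z (k - 1) := by
    obtain ⟨l, hl⟩ := H.Z_of_d h6 (H.vA A1').2.1 dq'
    rw [hl] at aq'
    rcases H.Z_adj aq' with h | h
    · rw [hl, h]
    · exfalso
      obtain ⟨-, c, h1, h2⟩ := (H.jumpK (Z (k + 1)) (Z k)).2 ⟨k + 1, rfl, by rw [add_sub_cancel_right]⟩
      rw [hl, h] at K1
      rw [H.pre.uniq _ _ _ _ h1 (H.sideZ.sub K1)] at h2
      exact h2 K1
  -- the faces of `K` at `Z k`
  have key := link_closed H.sph (v := Z k) (y0 := Z (k + 1)) (H.cycZ.adj k)
    (X := fun w => ∀ c, (Z k, w, c) ∈ K → w = q' ∨ w = x) (by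
      intro c hc
      exfalso
      obtain ⟨-, c', h1, h2⟩ := (H.jumpK (Z (k + 1)) (Z k)).2 ⟨k + 1, rfl, by rw [add_sub_cancel_right]⟩
      rw [H.pre.uniq _ _ _ _ h1 (H.sideZ.sub hc)] at h2
      exact h2 hc) (by
      intro w w' hw h c hc
      by_cases hK : (Z k, w, w') ∈ K
      · rcases h w' hK with h1 | h1
        · right
          rw [h1] at hw
          exact H.pre.uniq _ _ _ _ hw m1
        · exfalso
          rw [h1] at hw
          have h2 := H.pre.uniq _ _ _ _ hw m2
          rw [h2, eq1] at hc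
          obtain ⟨-, c', h3, h4⟩ := (H.jumpK (Z (k + 1)) (Z k)).2 ⟨k + 1, rfl, by rw [add_sub_cancel_right]⟩
          rw [H.pre.uniq _ _ _ _ h3 (H.sideZ.sub hc)] at h4
          exact h4 hc
      · have hj : Jump F K (Z k) w' := ⟨⟨c, hc⟩, w, H.pre.rot2 hw, fun h' => hK (H.sideZ.rot _ _ _ h')⟩
        obtain ⟨l, h1, h2⟩ := (H.jumpK _ _).1 hj
        left
        rw [h2, eq2, H.cycZ.inj h1])
  obtain ⟨y', ⟨c, hc⟩, hy'⟩ := H.tight.low (Z k) (H.f3 k).1 (fun i h => H.C_ne_Z i k h.symm)
  have e1 := z1 H.hb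
  have e2 := z2 H.hb
  have hfin : y' = q' ∨ y' = x ∨ y' = q := by
    rcases hc with hc | hc
    · rcases key y' (adj_of_mem (H.subA hc)) c (Finset.mem_sdiff.1 hc).1 with h | h
      · exact Or.inl h
      · exact Or.inr (Or.inl h)
    · have hc' := H.rotA _ _ _ hc
      rcases key c (adj_of_mem (H.subA hc')) y' (Finset.mem_sdiff.1 hc').1 with h | h
      · right; left
        rw [h] at hc'
        exact H.pre.uniq _ _ _ _ (H.subA hc') m1
      · right; right
        rw [h] at hc'
        exact H.pre.uniq _ _ _ _ (H.subA hc') m2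
  rcases hfin with rfl | rfl | rfl
  · rcases tq' with h | h
    · apply e1; linear_combination -hy' - h
    · apply e2; linear_combination -hy' - h
  · apply e2; linear_combination -hy' - tx
  · rcases tq with h | h
    · apply e1; linear_combination -hy' - h
    · apply e2; linear_combination -hy' - h

/-- there are no special vertices -/
lemma not_Sp (h6 : P6Stmt) (h8 : P8Stmt) : ∀ (n : ℕ) (y : ℕ), y ∈ verts (K \ D) → (N : ℤ) - d y = n → 1 ≤ d y →
    Sp F D K θ d y → False := by
  intro n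
  induction n with
  | zero =>
    intro y hy hn h1 hs
    obtain ⟨k, rfl⟩ := H.Z_of_d h6 hy (by push_cast at hn; omega)
    exact H.not_Sp_Z h6 k hs
  | succ n ih =>
    intro y hy hn h1 hs
    push_cast at hn
    have hyI := H.inner_of_d hy h1 (by omega)
    obtain ⟨hL, hlow⟩ := H.LM_of_Sp h6 h8 hyI hs
    obtain ⟨y', hc, hy'⟩ := H.tight.low y hy (fun i h => by
      have := H.tight.dC i
      rw [← h] at this; omega)
    have hadj : Adj F y y' := by
      obtain ⟨c, hc | hc⟩ := hc
      · exact adj_of_mem (H.subA hc)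
      · exact H.pre.adj_symm (adj_of_mem (H.subA hc))
    obtain ⟨h2, -⟩ := H.LM_link hL hadj hy'
    have e2 := z2 H.hb
    rcases h2 with h2 | h2
    · have := hlow y' hadj h2
      apply e2; linear_combination -hy' - this
    · exact ih y' (H.f5 y hyI y' hadj) (by omega) (by omega) (H.Sp_of_LM hL hadj hy' h2)

/-- there are no local minima -/
lemma not_LM (h6 : P6Stmt) (h8 : P8Stmt) : ∀ (n : ℕ) (x : ℕ), d x = n → LM F D K θ d x → False := by
  intro n
  induction n with
  | zero =>
    intro x hx hL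
    have := H.d_inner h6 hL.1
    push_cast at hx
    omega
  | succ n ih =>
    intro x hx hL
    push_cast at hx
    have hxA := H.intA hL.1
    have hxN := H.d_inner h6 hL.1
    obtain ⟨y, hc, hy⟩ := H.tight.low x hxA (fun i h => by
      have := H.tight.dC i
      rw [← h] at this; omega)
    have hadj : Adj F x y := by
      obtain ⟨c, hc | hc⟩ := hc
      · exact adj_of_mem (H.subA hc)
      · exact H.pre.adj_symm (adj_of_mem (H.subA hc))
    have hyA := H.f5 x hL.1 y hadj
    obtain ⟨h2, u, u', hu, hu', du, du', tu, tu'⟩ := H.LM_link hL hadj hy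
    rcases h2 with h2 | h2
    swap
    · have hdr := (H.tight.dr y hyA).2
      exact H.not_Sp h6 h8 ((N : ℤ) - d y).toNat y hyA (by omega) (by omega) (H.Sp_of_LM hL hadj hy h2)
    -- the neighbour `y` is lower
    have m1 : (y, x, u) ∈ F := H.pre.rot2 hu
    have m2 : (y, u', x) ∈ F := H.pre.rot _ _ _ hu'
    have au : Adj F y u := adj_of_mem' H.pre m1
    have au' : Adj F y u' := adj_of_mem m2
    have huA := H.f5 x hL.1 u (adj_of_mem hu)
    have huA' := H.f5 x hL.1 u' (adj_of_mem' H.pre hu')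
    have t1 : θ u = θ y + 1 := by
      rcases tu with h | h
      · exact absurd h.symm (H.dz' hyA huA au (by omega) du.symm)
      · exact h
    have t2 : θ u' = θ y + 1 := by
      rcases tu' with h | h
      · exact absurd h.symm (H.dz' hyA huA' au' (by omega) du'.symm)
      · exact h
    by_cases hn : n = 0
    · -- `y` is on the inner boundary
      subst hn
      obtain ⟨i, rfl⟩ := H.C_of_d h6 hyA (by push_cast at hx; omega)
      obtain ⟨j, rfl⟩ := H.C_of_d h6 huA (by rw [du, H.tight.dC])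
      obtain ⟨j', rfl⟩ := H.C_of_d h6 huA' (by rw [du', H.tight.dC])
      rw [H.tight.thC, H.tight.thC] at t1 t2
      subst t1 t2
      -- the link of `C i` has only two vertices
      have key := link_closed H.sph (v := C i) (y0 := x) (adj_of_mem m1) (X := fun w => w = x ∨ w = C (i + 1))
        (Or.inl rfl) (by
          intro w w' hw h
          rcases h with rfl | rfl
          · right; exact H.pre.uniq _ _ _ _ hw m1
          · left; exact H.pre.uniq _ _ _ _ hw m2)
      have hadj' : Adj F (C i) (C (i - 1)) := by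
        have h := H.tight.cyc.adj (i - 1)
        rw [sub_add_cancel] at h
        exact H.pre.adj_symm h
      rcases key _ hadj' with h | h
      · have := H.tight.dC (i - 1)
        rw [h] at this
        omega
      · have := H.tight.cyc.inj h
        apply z2 H.hb
        linear_combination -this
    · -- `y` is an inner local minimum
      have hyI := H.inner_of_d hyA (by omega) (by omega)
      refine ih y (by omega) ⟨hyI, fun w hw hd => ?_⟩
      obtain ⟨p1, p2, L⟩ := h8 F D K b N C θ d H.sph H.hb H.hN H.tight y hyI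
      have eq1 : u = p2 := by
        rcases L.all u au du with h | h
        · obtain ⟨a, ha, hda⟩ := L.pred_p
          rw [← h] at ha
          have := H.pre.uniq' (H.pre.rot _ _ _ ha) (H.pre.rot _ _ _ m1)
          rw [this] at hda
          omega
        · exact h
      have eq2 : u' = p1 := by
        rcases L.all u' au' du' with h | h
        · exact h
        · obtain ⟨a, ha, hda⟩ := L.succ_q
          rw [← h] at ha
          have := H.pre.uniq _ _ _ _ ha m2
          rw [this] at hda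
          omega
      rcases L.all w hw hd with h | h
      · rw [h, ← eq2]; exact t2
      · rw [h, ← eq1]; exact t1

open Classical in
/-- the balance of the level darts at an inner vertex -/
lemma balance (h6 : P6Stmt) (h8 : P8Stmt) {x p q : ℕ} (hx : IntV F D K x) (L : Loc F θ d x p q) :
    dl θ x p + dl θ x q = 0 := by
  let I : Finset ℕ := (verts K).filter (fun x => IntV F D K x)
  have hI : ∀ x, x ∈ I ↔ IntV F D K x := fun x => by
    simp only [I, Finset.mem_filter, and_iff_right_iff_imp]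
    exact fun h => h.1
  let f : ℕ → ℕ → ℤ := fun x y => if Adj F x y ∧ d y = d x then dl θ x y else 0
  have fanti : ∀ x y, f x y = - f y x := by
    intro x y
    simp only [f]
    by_cases h : Adj F x y ∧ d y = d x
    · rw [if_pos h, if_pos ⟨H.pre.adj_symm h.1, h.2.symm⟩]; exact dl_anti H.hb x y
    · rw [if_neg h, if_neg, neg_zero]
      exact fun h' => h ⟨H.pre.adj_symm h'.1, h'.2.symm⟩
  have h0 : ∑ x ∈ I, ∑ y ∈ I, f x y = 0 := by
    have h1 : ∑ x ∈ I, ∑ y ∈ I, f x y = - ∑ x ∈ I, ∑ y ∈ I, f x y := by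
      conv_lhs => rw [Finset.sum_comm]
      rw [← Finset.sum_neg_distrib]
      refine Finset.sum_congr rfl fun y _ => ?_
      rw [← Finset.sum_neg_distrib]
      exact Finset.sum_congr rfl fun x _ => fanti x y
    omega
  have h2 : ∀ x p q, IntV F D K x → Loc F θ d x p q → ∑ y ∈ I, f x y = dl θ x p + dl θ x q := by
    intro x p q hx L
    have hxA := H.intA hx
    have hxN := H.d_inner h6 hx
    have hsub : ({p, q} : Finset ℕ) ⊆ I := by
      intro y hy
      rw [Finset.mem_insert, Finset.mem_singleton] at hy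
      rw [hI]
      rcases hy with rfl | rfl
      · exact H.inner_of_d (H.f5 x hx _ L.ap) (by rw [L.dp]; omega) (by rw [L.dp]; omega)
      · exact H.inner_of_d (H.f5 x hx _ L.aq) (by rw [L.dq]; omega) (by rw [L.dq]; omega)
    rw [← Finset.sum_subset hsub, Finset.sum_pair L.pq]
    · simp only [f]
      rw [if_pos ⟨L.ap, L.dp⟩, if_pos ⟨L.aq, L.dq⟩]
    · intro y _ hy
      simp only [f]
      rw [if_neg]
      rintro ⟨h3, h4⟩
      apply hy
      rw [Finset.mem_insert, Finset.mem_singleton]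
      exact L.all y h3 h4
  have h3 : ∀ x ∈ I, ∑ y ∈ I, f x y ≤ 0 := by
    intro x hx
    rw [hI] at hx
    obtain ⟨p, q, L⟩ := h8 F D K b N C θ d H.sph H.hb H.hN H.tight x hx
    rw [h2 x p q hx L]
    have hxN := H.d_inner h6 hx
    by_contra hc
    have hnot := H.not_LM h6 h8 (d x).toNat x (by omega)
    apply hnot
    have a1 := abs_le.1 (dl_abs (θ := θ) x p)
    have a2 := abs_le.1 (dl_abs (θ := θ) x q)
    refine ⟨hx, fun w hw hd => ?_⟩
    have hp : θ p = θ x + 1 := by
      rcases L.tp with h | h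
      · exact h
      · have := dl_neg_one H.hb h; omega
    have hq : θ q = θ x + 1 := by
      rcases L.tq with h | h
      · exact h
      · have := dl_neg_one H.hb h; omega
    rcases L.all w hw hd with h | h
    · rw [h]; exact hp
    · rw [h]; exact hq
  have h4 := (Finset.sum_eq_zero_iff_of_nonpos h3).1 h0 x ((hI x).2 hx)
  rw [h2 x p q hx L] at h4
  exact h4

end TA

theorem p9 (h0 : P0Stmt) (h6 : P6Stmt) (h7 : A7Stmt) (h8 : P8Stmt) (h20 : A20Stmt) : P9Stmt := by
  intro F D K b N C θ d hF hb hN hT x hx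
  obtain ⟨z, Z, H⟩ := exists_TA h0 h7 h20 hF hb hN hT
  obtain ⟨p, q, L⟩ := h8 F D K b N C θ d hF hb hN hT x hx
  have hB := H.balance h6 h8 hx L
  refine ⟨p, q, L, ?_⟩
  rcases L.tp with h | h <;> rcases L.tq with h' | h'
  · rw [dl_one h, dl_one h'] at hB; omega
  · exact Or.inl ⟨h, h'⟩
  · exact Or.inr ⟨h, h'⟩
  · rw [dl_neg_one hb h, dl_neg_one hb h'] at hB; omega

end Pool.Agent.H43.RCR
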