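import Pool.Agent.H3.RCR.Stmts2

/-!
# Project RCR: auxiliary lemmas about links, rotations and annuli
-/

namespace Pool.Agent.H43.RCR

open Finset Pool.Agent.H3.RCR

variable {F D K A : Finset Tri} {b N z m : ℕ} {C : ZMod b → ℕ} {Z : ZMod z → ℕ} {θ : ℕ → ZMod b} {d : ℕ → ℤ}

/-! ### Residues -/

lemma zne (hb : m < b) (hm : 0 < m) : (m : ZMod b) ≠ 0 := by
  intro h
  rw [ZMod.natCast_eq_zero_iff] at h
  exact absurd (Nat.le_of_dvd hm h) (by omega)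

lemma z1 (hb : 4 ≤ b) : (1 : ZMod b) ≠ 0 := by exact_mod_cast zne (m := 1) (b := b) (by omega) (by omega)
lemma z2 (hb : 4 ≤ b) : (2 : ZMod b) ≠ 0 := by exact_mod_cast zne (m := 2) (b := b) (by omega) (by omega)
lemma z3 (hb : 4 ≤ b) : (3 : ZMod b) ≠ 0 := by exact_mod_cast zne (m := 3) (b := b) (by omega) (by omega)

/-! ### Links -/

lemma adj_of_mem {v p q : ℕ} (h : (v, p, q) ∈ F) : Adj F v p := ⟨q, h⟩

lemma adj_of_mem' (hF : Pre F) {v p q : ℕ} (h : (v, p, q) ∈ F) : Adj F v q :=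
  hF.adj_symm ⟨p, hF.rot2 h⟩

/-- a set of neighbours closed under successor contains all neighbours -/
lemma link_closed (hF : Sph F) {v y0 : ℕ} (h0 : Adj F v y0) {X : ℕ → Prop} (hX : X y0)
    (hs : ∀ p q, (v, p, q) ∈ F → X p → X q) : ∀ y, Adj F v y → X y := by
  intro y hy
  have h := hF.link v y0 y h0 hy
  induction h with
  | refl => exact hX
  | tail _ h2 ih => exact hs _ _ h2 (ih (adj_of_mem h2))

/-- two changes of a property around a vertex -/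
lemma change (hF : Sph F) {v y1 y2 : ℕ} (h1 : Adj F v y1) (h2 : Adj F v y2) {X : ℕ → Prop} (hX : X y1)
    (hY : ¬ X y2) : ∃ p q, (v, p, q) ∈ F ∧ X p ∧ ¬ X q := by
  by_contra hc
  push Not at hc
  exact hY (link_closed hF h1 hX hc y2 h2)

/-! ### Rotations -/

/-- rotation -/
def rt (t : Tri) : Tri := (t.2.1, t.2.2, t.1)

lemma sum_rt {M : Type*} [AddCommMonoid M] (hA : RotC A) (f : Tri → M) : ∑ t ∈ A, f (rt t) = ∑ t ∈ A, f t := by
  refine Finset.sum_nbij' rt (fun t => rt (rt t)) ?_ ?_ ?_ ?_ ?_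
  · rintro ⟨a, b, c⟩ h; exact hA _ _ _ h
  · rintro ⟨a, b, c⟩ h; exact hA _ _ _ (hA _ _ _ h)
  · rintro ⟨a, b, c⟩ _; rfl
  · rintro ⟨a, b, c⟩ _; rfl
  · rintro ⟨a, b, c⟩ _; rfl

lemma rotC_sdiff (hK : RotC K) (hD : RotC D) : RotC (K \ D) := by
  intro a b c h
  rw [Finset.mem_sdiff] at h ⊢
  exact ⟨hK _ _ _ h.1, fun h' => h.2 (hD _ _ _ (hD _ _ _ h'))⟩

/-! ### Cycles and their sides -/

lemma cyc_neg (hF : Pre F) {c : ZMod m → ℕ} (hc : Cyc F c) : Cyc F (fun i => c (-i)) := by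
  refine ⟨hc.three, fun i j h => neg_injective (hc.inj h), fun i => ?_⟩
  have h := hc.adj (-i - 1)
  rw [sub_add_cancel] at h
  have e : (-(i + 1) : ZMod m) = -i - 1 := by ring
  show Adj F (c (-i)) (c (-(i + 1)))
  rw [e]
  exact hF.adj_symm h

lemma jump_neg {c : ZMod m → ℕ} {S : Finset Tri} (h : Side F (fun i => c (-i)) S) (x y : ℕ) :
    Jump F S x y ↔ ∃ k, x = c k ∧ y = c (k - 1) := by
  rw [h.jump]
  constructor
  · rintro ⟨i, h1, h2⟩
    exact ⟨-i, h1, by rw [h2]; congr 1; ring⟩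
  · rintro ⟨k, h1, h2⟩
    exact ⟨-k, by rw [h1, neg_neg], by rw [h2]; congr 1; ring⟩

lemma mem_verts_sdiff {x : ℕ} (h : x ∈ verts (K \ D)) : x ∈ verts K := by
  rw [mem_verts] at h ⊢
  obtain ⟨p, q, h⟩ := h
  exact ⟨p, q, (Finset.mem_sdiff.1 h).1⟩

lemma mem_verts_of {a b c : ℕ} (h : (a, b, c) ∈ F) : a ∈ verts F := mem_verts.2 ⟨b, c, h⟩

/-- the vertices on the boundary of a side -/
lemma bd_side (h7 : A7Stmt) (hF : Sph F) {c : ZMod m → ℕ} {S : Finset Tri} (hc : Cyc F c)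
    (hS : Side F (fun i => c (-i)) S) (x : ℕ) : (x ∈ verts S ∧ x ∈ verts (F \ S)) ↔ ∃ k, x = c k := by
  obtain ⟨_, h1, h2⟩ := h7 F hF m (fun i => c (-i)) S (cyc_neg hF.toPre hc) hS
  constructor
  · rintro ⟨hx, hx'⟩
    by_contra hne
    push Not at hne
    rw [mem_verts] at hx'
    obtain ⟨p, q, hpq⟩ := hx'
    rw [Finset.mem_sdiff] at hpq
    exact hpq.2 (h1 x hx (fun i => hne (-i)) p q hpq.1)
  · rintro ⟨k, rfl⟩
    have := h2 (-k)
    simpa using this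

/-! ### Integral steps -/

lemma dl_anti (hb : 4 ≤ b) (x y : ℕ) : dl θ x y = - dl θ y x := by
  unfold dl
  by_cases h1 : θ y = θ x + 1 <;> by_cases h2 : θ x = θ y + 1
  · exfalso
    rw [h1] at h2
    have : (2 : ZMod b) = 0 := by
      have h3 : θ x + 2 = θ x := by rw [eq_comm]; calc θ x = θ x + 1 + 1 := h2
        _ = θ x + 2 := by ring
      simpa using h3
    exact z2 hb this
  · rw [if_pos h1, if_neg h2, if_pos h1]; norm_num
  · rw [if_neg h1, if_pos h2, if_pos h2]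
  · rw [if_neg h1, if_neg h2, if_neg h2, if_neg h1]; norm_num

lemma dl_abs (x y : ℕ) : |dl θ x y| ≤ 1 := by
  unfold dl
  split_ifs <;> norm_num

lemma dl_one {x y : ℕ} (h : θ y = θ x + 1) : dl θ x y = 1 := by unfold dl; rw [if_pos h]

lemma dl_neg_one (hb : 4 ≤ b) {x y : ℕ} (h : θ x = θ y + 1) : dl θ x y = -1 := by
  rw [dl_anti hb, dl_one h]

/-! ### The length of the outer boundary -/

/-- the sum of `δ` over a rotation closed set without curl -/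
lemma sum_dl_zero (hA : RotC A) (h : ∀ x y c, (x, y, c) ∈ A → dl θ x y + dl θ y c + dl θ c x = 0) :
    ∑ t ∈ A, dl θ t.1 t.2.1 = 0 := by
  have h1 := sum_rt hA (fun t => dl θ t.1 t.2.1)
  have h2 := sum_rt hA (fun t => dl θ (rt t).1 (rt t).2.1)
  have h3 : ∑ t ∈ A, (dl θ t.1 t.2.1 + dl θ t.2.1 t.2.2 + dl θ t.2.2 t.1) = 0 :=
    Finset.sum_eq_zero fun t ht => by
      obtain ⟨x, y, c⟩ := t
      exact h x y c ht
  rw [Finset.sum_add_distrib, Finset.sum_add_distrib] at h3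
  have e1 : ∑ t ∈ A, dl θ t.2.1 t.2.2 = ∑ t ∈ A, dl θ t.1 t.2.1 := h1
  have e2 : ∑ t ∈ A, dl θ t.2.2 t.1 = ∑ t ∈ A, dl θ t.2.1 t.2.2 := h2
  omega

theorem le_len (h0 : P0Stmt) (h20 : A20Stmt) (hF : Sph F) (hb : 4 ≤ b) (hN : 1 ≤ N) (hA : Ann F b N C D K θ d)
    (hZc : Cyc F Z) (hZs : Side F (fun i => Z (-i)) K) : b ≤ z := by
  have hrot : RotC (K \ D) := rotC_sdiff hZs.rot hA.sideD.rot
  obtain ⟨-, -, -, -, -, -, -, -, -, hj⟩ := h0 F D K b N C θ d hF hN hA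
  have s0 : ∑ t ∈ K \ D, dl θ t.1 t.2.1 = 0 := sum_dl_zero hrot (hj hb)
  have s1 := h20 ℤ F K z (fun i => Z (-i)) (dl θ) hF.toPre (cyc_neg hF.toPre hZc) hZs (dl_anti hb)
  have s2 := h20 ℤ F D b (fun i => C (-i)) (dl θ) hF.toPre (cyc_neg hF.toPre hA.cyc) hA.sideD (dl_anti hb)
  have s3 : ∑ i ∈ Finset.range b, dl θ (C (-(i : ZMod b))) (C (-((i : ZMod b) + 1))) = -b := by
    rw [Finset.sum_congr rfl (g := fun _ => (-1 : ℤ))]
    · simp
    · intro i _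
      refine dl_neg_one hb ?_
      rw [hA.thC, hA.thC]; ring
  have s4 := Finset.sum_sdiff (f := fun t : Tri => dl θ t.1 t.2.1) hA.sub
  rw [s0, zero_add] at s4
  have s5 : |∑ i ∈ Finset.range z, dl θ (Z (-(i : ZMod z))) (Z (-((i : ZMod z) + 1)))| ≤ z := by
    refine (Finset.abs_sum_le_sum_abs _ _).trans ?_
    refine (Finset.sum_le_sum fun i _ => dl_abs _ _).trans ?_
    simp
  have s6 : ∑ i ∈ Finset.range z, dl θ (Z (-(i : ZMod z))) (Z (-((i : ZMod z) + 1))) = -b := by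
    rw [← s3]
    exact s1.symm.trans (s4.symm.trans s2)
  rw [s6, abs_neg, Nat.abs_cast] at s5
  exact_mod_cast s5

end Pool.Agent.H43.RCR
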